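import Mathlib

/-!
# Conditional expectations on finite types (H25/DQ)

`ce Φ f x` = the average of `f` over the fibre of `Φ` through `x`.
-/

namespace Pool.Agent.H25.DQ

open Finset

variable {X L L' : Type*} [Fintype X] [DecidableEq L] [DecidableEq L']

/-- the fibre of `x` -/
def fib (Φ : X → L) (x : X) : Finset X := univ.filter fun y => Φ y = Φ x

/-- conditional expectation -/
noncomputable def ce (Φ : X → L) (f : X → ℝ) (x : X) : ℝ :=
  (∑ y ∈ fib Φ x, f y) / ((fib Φ x).card : ℝ)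

theorem mem_fib {Φ : X → L} {x y : X} : y ∈ fib Φ x ↔ Φ y = Φ x := by simp [fib]

theorem fib_eq {Φ : X → L} {x y : X} (h : Φ x = Φ y) : fib Φ x = fib Φ y := by
  unfold fib; rw [h]

theorem fib_card_pos (Φ : X → L) (x : X) : 0 < ((fib Φ x).card : ℝ) := by
  have : 0 < (fib Φ x).card := Finset.card_pos.2 ⟨x, mem_fib.2 rfl⟩
  exact_mod_cast this

theorem ce_congr {Φ : X → L} {f : X → ℝ} {x y : X} (h : Φ x = Φ y) : ce Φ f x = ce Φ f y := by
  unfold ce; rw [fib_eq h]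

theorem ce_nonneg {Φ : X → L} {f : X → ℝ} (hf : ∀ x, 0 ≤ f x) (x : X) : 0 ≤ ce Φ f x :=
  div_nonneg (sum_nonneg fun y _ => hf y) (fib_card_pos Φ x).le

theorem ce_le_one {Φ : X → L} {f : X → ℝ} (hf : ∀ x, f x ≤ 1) (x : X) : ce Φ f x ≤ 1 := by
  unfold ce
  rw [div_le_one (fib_card_pos Φ x)]
  calc ∑ y ∈ fib Φ x, f y ≤ ∑ y ∈ fib Φ x, (1 : ℝ) := sum_le_sum fun y _ => hf y
    _ = (fib Φ x).card := by simp

/-- `∑ f g = ∑ (ce f) g` for measurable `g` -/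
theorem ce_mul (Φ : X → L) (f g : X → ℝ) (hg : ∀ x y, Φ x = Φ y → g x = g y) :
    ∑ x, ce Φ f x * g x = ∑ x, f x * g x := by
  have h1 : ∀ x, ce Φ f x * g x = ∑ y, if Φ y = Φ x then f y * g y / ((fib Φ y).card : ℝ) else 0 := by
    intro x
    rw [← Finset.sum_filter]
    unfold ce
    rw [div_mul_eq_mul_div, Finset.sum_mul, Finset.sum_div]
    refine Finset.sum_congr rfl fun y hy => ?_
    have h2 : Φ y = Φ x := mem_fib.1 hy
    rw [hg y x h2, fib_eq h2]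
  simp only [h1]
  rw [Finset.sum_comm]
  refine Finset.sum_congr rfl fun y _ => ?_
  rw [← Finset.sum_filter]
  have h3 : (univ.filter fun x => Φ y = Φ x) = fib Φ y := by
    ext x; simp [fib, eq_comm]
  rw [h3, Finset.sum_const, nsmul_eq_mul]
  field_simp [(fib_card_pos Φ y).ne']

theorem ce_sum (Φ : X → L) (f : X → ℝ) : ∑ x, ce Φ f x = ∑ x, f x := by
  have := ce_mul Φ f (fun _ => 1) (fun _ _ _ => rfl)
  simpa using this

/-- energy -/
noncomputable def en (Φ : X → L) (f : X → ℝ) : ℝ := ∑ x, ce Φ f x ^ 2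

theorem en_nonneg (Φ : X → L) (f : X → ℝ) : 0 ≤ en Φ f := sum_nonneg fun _ _ => sq_nonneg _

theorem en_le (Φ : X → L) {f : X → ℝ} (h0 : ∀ x, 0 ≤ f x) (h1 : ∀ x, f x ≤ 1) :
    en Φ f ≤ Fintype.card X := by
  unfold en
  calc ∑ x, ce Φ f x ^ 2 ≤ ∑ x : X, (1 : ℝ) := by
        refine sum_le_sum fun x _ => ?_
        have h2 := ce_nonneg (Φ := Φ) h0 x
        have h3 := ce_le_one (Φ := Φ) h1 x
        nlinarith
    _ = Fintype.card X := by simp

/-- Pythagoras -/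
theorem en_diff (Φ : X → L) (Ψ : X → L') (f : X → ℝ) (h : ∀ x y, Ψ x = Ψ y → Φ x = Φ y) :
    ∑ x, (ce Ψ f x - ce Φ f x) ^ 2 = en Ψ f - en Φ f := by
  have h1 : ∑ x, ce Ψ f x * ce Φ f x = ∑ x, f x * ce Φ f x :=
    ce_mul Ψ f (ce Φ f) fun x y hxy => ce_congr (h x y hxy)
  have h2 : ∑ x, ce Φ f x * ce Φ f x = ∑ x, f x * ce Φ f x :=
    ce_mul Φ f (ce Φ f) fun x y hxy => ce_congr hxy
  unfold en
  have h3 : ∀ x, (ce Ψ f x - ce Φ f x) ^ 2 =
      ce Ψ f x ^ 2 - 2 * (ce Ψ f x * ce Φ f x) + ce Φ f x * ce Φ f x := fun x => by ring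
  simp only [h3, Finset.sum_add_distrib, Finset.sum_sub_distrib, ← Finset.mul_sum]
  rw [h1, ← h2]
  simp only [pow_two]
  ring

/-- a measurable test function which sees `f - ce Φ f` increases the energy -/
theorem en_incr (Φ : X → L) (Ψ : X → L') (f g : X → ℝ) (h : ∀ x y, Ψ x = Ψ y → Φ x = Φ y)
    (hg : ∀ x y, Ψ x = Ψ y → g x = g y) (h0 : ∀ x, |g x| ≤ 1) :
    (∑ x, (f x - ce Φ f x) * g x) ^ 2 ≤ (Fintype.card X : ℝ) * (en Ψ f - en Φ f) := by
  have h1 : ∑ x, (f x - ce Φ f x) * g x = ∑ x, (ce Ψ f x - ce Φ f x) * g x := by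
    simp only [sub_mul, Finset.sum_sub_distrib]
    rw [ce_mul Ψ f g hg]
  rw [h1, ← en_diff Φ Ψ f h]
  have h2 := Finset.sum_mul_sq_le_sq_mul_sq (univ : Finset X) (fun x => ce Ψ f x - ce Φ f x) g
  have h3 : ∑ x, g x ^ 2 ≤ (Fintype.card X : ℝ) := by
    calc ∑ x, g x ^ 2 ≤ ∑ x : X, (1 : ℝ) := by
          refine sum_le_sum fun x _ => ?_
          have := h0 x
          rw [← sq_abs]
          nlinarith [abs_nonneg (g x)]
      _ = Fintype.card X := by simp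
  have h4 : 0 ≤ ∑ x, (ce Ψ f x - ce Φ f x) ^ 2 := sum_nonneg fun _ _ => sq_nonneg _
  calc _ ≤ _ := h2
    _ ≤ (∑ x, (ce Ψ f x - ce Φ f x) ^ 2) * (Fintype.card X : ℝ) := mul_le_mul_of_nonneg_left h3 h4
    _ = _ := mul_comm _ _

end Pool.Agent.H25.DQ
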